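import Mathlib

set_option autoImplicit false

open MvPolynomial

namespace Pool.Agent.H519R3

/-- The homogeneous prime ideal of a point of projective space. -/
noncomputable def pointIdeal {n : ℕ} (P : Projectivization ℂ (Fin (n + 1) → ℂ)) :
    Ideal (MvPolynomial (Fin (n + 1)) ℂ) :=
  MvPolynomial.vanishingIdeal ℂ (P.submodule : Set (Fin (n + 1) → ℂ))

/-- The ideal of the double points supported on a finite set of points. -/
noncomputable def doubleIdeal {n : ℕ} (Y : Finset (Projectivization ℂ (Fin (n + 1) → ℂ))) :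
    Ideal (MvPolynomial (Fin (n + 1)) ℂ) :=
  ⨅ P ∈ Y, pointIdeal P ^ 2

/-- The Hilbert function of the double points. -/
noncomputable def hilb {n : ℕ} (Y : Finset (Projectivization ℂ (Fin (n + 1) → ℂ))) (d : ℕ) : ℕ :=
  Module.finrank ℂ ((homogeneousSubmodule (Fin (n + 1)) ℂ d).map
    (Ideal.Quotient.mkₐ ℂ (doubleIdeal Y)).toLinearMap)

variable {n : ℕ}

theorem mem_pointIdeal {P : Projectivization ℂ (Fin (n + 1) → ℂ)}
    {F : MvPolynomial (Fin (n + 1)) ℂ} :
    F ∈ pointIdeal P ↔ ∀ v ∈ P.submodule, eval v F = 0 := by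
  unfold pointIdeal
  rw [MvPolynomial.mem_vanishingIdeal_iff]
  simp [MvPolynomial.aeval_eq_eval]

/-- The linear form of a functional. -/
noncomputable def lin (f : Module.Dual ℂ (Fin (n + 1) → ℂ)) : MvPolynomial (Fin (n + 1)) ℂ :=
  ∑ i, C (f (Pi.single i 1)) * X i

theorem eval_lin (f : Module.Dual ℂ (Fin (n + 1) → ℂ)) (v : Fin (n + 1) → ℂ) :
    eval v (lin f) = f v := by
  unfold lin
  rw [map_sum]
  simp only [map_mul, eval_C, eval_X]
  conv_rhs => rw [← Finset.univ_sum_single v]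
  rw [map_sum]
  refine Finset.sum_congr rfl fun i _ => ?_
  have : (Pi.single i (v i) : Fin (n + 1) → ℂ) = v i • Pi.single i 1 := by
    rw [← Pi.single_smul]; simp
  rw [this, map_smul, smul_eq_mul, mul_comm]

theorem lin_mem (f : Module.Dual ℂ (Fin (n + 1) → ℂ)) : (lin f).IsHomogeneous 1 := by
  unfold lin
  refine IsHomogeneous.sum _ _ _ fun i _ => ?_
  exact (isHomogeneous_C_mul_X _ _)

/-- The directional derivative. -/
noncomputable def dird (w : Fin (n + 1) → ℂ) :
    Derivation ℂ (MvPolynomial (Fin (n + 1)) ℂ) (MvPolynomial (Fin (n + 1)) ℂ) :=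
  mkDerivation ℂ fun i => C (w i)

theorem dird_lin (w : Fin (n + 1) → ℂ) (f : Module.Dual ℂ (Fin (n + 1) → ℂ)) :
    dird w (lin f) = C (f w) := by
  rw [← eval_lin f w]
  unfold lin dird
  rw [map_sum, map_sum, map_sum]
  refine Finset.sum_congr rfl fun i _ => ?_
  rw [Derivation.leibniz, mkDerivation_X, derivation_C]
  simp

theorem eval_eq_zero_of_mem_sq {P : Projectivization ℂ (Fin (n + 1) → ℂ)}
    {F : MvPolynomial (Fin (n + 1)) ℂ} (hF : F ∈ pointIdeal P ^ 2) {v : Fin (n + 1) → ℂ}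
    (hv : v ∈ P.submodule) (w : Fin (n + 1) → ℂ) : eval v F = 0 ∧ eval v (dird w F) = 0 := by
  rw [pow_two] at hF
  refine Submodule.mul_induction_on hF ?_ ?_
  · intro a ha b hb
    have ha' := mem_pointIdeal.1 ha v hv
    have hb' := mem_pointIdeal.1 hb v hv
    constructor
    · rw [map_mul, ha', zero_mul]
    · rw [Derivation.leibniz, smul_eq_mul, smul_eq_mul, map_add, map_mul, map_mul, ha', hb']
      simp
  · intro a b ha hb
    refine ⟨?_, ?_⟩
    · rw [map_add, ha.1, hb.1, add_zero]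
    · rw [map_add, map_add, ha.2, hb.2, add_zero]

theorem mem_doubleIdeal {Y : Finset (Projectivization ℂ (Fin (n + 1) → ℂ))}
    {F : MvPolynomial (Fin (n + 1)) ℂ} :
    F ∈ doubleIdeal Y ↔ ∀ P ∈ Y, F ∈ pointIdeal P ^ 2 := by
  unfold doubleIdeal
  simp

end Pool.Agent.H519R3
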