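import Pool.Agent.H519R3.DP1

set_option autoImplicit false

open MvPolynomial

namespace Pool.Agent.H519R3

/-- A univariate polynomial with double roots at too many points vanishes. -/
theorem poly_zero_of_double {ι : Type*} {Y : Finset ι} {τ : ι → ℂ}
    (hτ : Set.InjOn τ Y) {g : Polynomial ℂ} (hdeg : g.natDegree < 2 * Y.card)
    (h0 : ∀ P ∈ Y, g.eval (τ P) = 0) (h1 : ∀ P ∈ Y, g.derivative.eval (τ P) = 0) : g = 0 := by
  classical
  by_contra hg
  have hle : 2 * Y.card ≤ Multiset.card g.roots := by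
    have hsum : ∑ a ∈ Y.image τ, g.roots.count a ≤ Multiset.card g.roots := by
      calc ∑ a ∈ Y.image τ, g.roots.count a ≤
          ∑ a ∈ (Y.image τ ∪ g.roots.toFinset), g.roots.count a :=
            Finset.sum_le_sum_of_subset Finset.subset_union_left
        _ = Multiset.card g.roots := by
            exact Multiset.sum_count_eq_card fun a ha =>
              Finset.mem_union_right _ (Multiset.mem_toFinset.2 ha)
    refine le_trans ?_ hsum
    rw [Finset.sum_image hτ]
    calc 2 * Y.card = ∑ _P ∈ Y, 2 := by rw [Finset.sum_const, smul_eq_mul, mul_comm]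
      _ ≤ _ := by
        refine Finset.sum_le_sum fun P hP => ?_
        rw [Polynomial.count_roots]
        exact (Polynomial.one_lt_rootMultiplicity_iff_isRoot hg).2 ⟨h0 P hP, h1 P hP⟩
  have := Polynomial.card_roots' g
  omega

theorem poly_zero_of_simple {ι : Type*} {Y : Finset ι} {τ : ι → ℂ}
    (hτ : Set.InjOn τ Y) {g : Polynomial ℂ} (hdeg : g.natDegree < Y.card)
    (h0 : ∀ P ∈ Y, g.eval (τ P) = 0) : g = 0 := by
  classical
  refine Polynomial.eq_zero_of_natDegree_lt_card_of_eval_eq_zero' g (Y.image τ) ?_ ?_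
  · intro a ha
    obtain ⟨P, hP, rfl⟩ := Finset.mem_image.1 ha
    exact h0 P hP
  · rwa [Finset.card_image_of_injOn hτ]

variable {n : ℕ}

/-- General coordinates for a finite set of points. -/
theorem exists_coords (hn : 1 ≤ n) (Y : Finset (Projectivization ℂ (Fin (n + 1) → ℂ)))
    (hY : Y.Nonempty) :
    ∃ (s t : Module.Dual ℂ (Fin (n + 1) → ℂ)) (v₁ : Fin (n + 1) → ℂ)
      (u : Fin (n - 1) → Module.Dual ℂ (Fin (n + 1) → ℂ)) (w : Fin (n - 1) → Fin (n + 1) → ℂ)
      (pt : Projectivization ℂ (Fin (n + 1) → ℂ) → (Fin (n + 1) → ℂ)),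
      (∀ P ∈ Y, pt P ∈ P.submodule) ∧ (∀ P ∈ Y, s (pt P) = 1) ∧
      Set.InjOn (fun P => t (pt P)) (Y : Set (Projectivization ℂ (Fin (n + 1) → ℂ))) ∧
      s v₁ = 0 ∧ t v₁ = 1 ∧ (∀ j, s (w j) = 0) ∧ (∀ j, t (w j) = 0) ∧
      (∀ i j, u i (w j) = if i = j then 1 else 0) := by
  classical
  obtain ⟨s, hs⟩ := Module.exists_dual_forall_apply_ne_zero (K := ℂ)
    (fun P : Y => (P : Projectivization ℂ (Fin (n + 1) → ℂ)).rep) (fun P => P.1.rep_nonzero)
  have hker : 1 ≤ Module.finrank ℂ (LinearMap.ker s) := by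
    have h1 := LinearMap.finrank_range_add_finrank_ker s
    have h2 : Module.finrank ℂ (LinearMap.range s) ≤ 1 := by
      have := Submodule.finrank_le (LinearMap.range s)
      simpa using this
    have h3 : Module.finrank ℂ (Fin (n + 1) → ℂ) = n + 1 := by simp
    omega
  obtain ⟨z₀, hz₀, hz₀'⟩ : ∃ z₀ : Fin (n + 1) → ℂ, s z₀ = 0 ∧ z₀ ≠ 0 := by
    have hne : LinearMap.ker s ≠ ⊥ := by
      intro h
      rw [h] at hker
      simp at hker
    obtain ⟨z, hz, hz'⟩ := Submodule.exists_mem_ne_zero_of_ne_bot hne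
    exact ⟨z, hz, hz'⟩
  let pairs := {x : Y × Y // x.1 ≠ x.2}
  let z : Option pairs → Fin (n + 1) → ℂ := fun o => match o with
    | none => z₀
    | some x => s x.1.1.1.rep • x.1.2.1.rep - s x.1.2.1.rep • x.1.1.1.rep
  have hz : ∀ o, z o ≠ 0 := by
    intro o
    cases o with
    | none => exact hz₀'
    | some x =>
      intro h
      have hli := Projectivization.linearIndependent_pair_iff_ne.2
        (fun h : x.1.1.1 = x.1.2.1 => x.2 (Subtype.ext h))
      rw [LinearIndependent.pair_iff] at hli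
      have h' := hli (- s x.1.2.1.rep) (s x.1.1.1.rep) (by
        rw [← h]
        simp only [z]
        rw [neg_smul]
        abel)
      exact hs x.1.1 h'.2
  obtain ⟨t, ht⟩ := Module.exists_dual_forall_apply_ne_zero (K := ℂ) z hz
  let K : Submodule ℂ (Fin (n + 1) → ℂ) := LinearMap.ker (s.prod t)
  have hK : n - 1 ≤ Module.finrank ℂ K := by
    have h1 := LinearMap.finrank_range_add_finrank_ker (s.prod t)
    have h2 : Module.finrank ℂ (LinearMap.range (s.prod t)) ≤ 2 := by
      have := Submodule.finrank_le (LinearMap.range (s.prod t))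
      simpa using this
    have h3 : Module.finrank ℂ (Fin (n + 1) → ℂ) = n + 1 := by simp
    change n - 1 ≤ Module.finrank ℂ (LinearMap.ker (s.prod t))
    omega
  let b := Module.finBasis ℂ K
  have hu : ∀ j : Fin (n - 1), ∃ f : Module.Dual ℂ (Fin (n + 1) → ℂ),
      f ∘ₗ K.subtype = b.coord (Fin.castLE hK j) := fun j => LinearMap.exists_extend _
  choose u hu using hu
  refine ⟨s, t, (t z₀)⁻¹ • z₀, u, fun j => (b (Fin.castLE hK j) : Fin (n + 1) → ℂ),
    fun P => (s P.rep)⁻¹ • P.rep, ?_, ?_, ?_, ?_, ?_, ?_, ?_, ?_⟩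
  · intro P _
    rw [Projectivization.submodule_eq]
    exact Submodule.smul_mem _ _ (Submodule.mem_span_singleton_self _)
  · intro P hP
    have := hs ⟨P, hP⟩
    simp only [map_smul, smul_eq_mul]
    exact inv_mul_cancel₀ this
  · intro P hP Q hQ hPQ
    by_contra hne
    have h := ht (some ⟨(⟨P, hP⟩, ⟨Q, hQ⟩), fun h => hne (congrArg Subtype.val h)⟩)
    apply h
    have hP' := hs ⟨P, hP⟩
    have hQ' := hs ⟨Q, hQ⟩
    simp only [map_smul, smul_eq_mul] at hPQ
    simp only [z, map_sub, map_smul, smul_eq_mul]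
    simp only at hP' hQ'
    field_simp at hPQ
    rw [sub_eq_zero]
    linear_combination -hPQ
  · rw [map_smul, hz₀, smul_zero]
  · rw [map_smul, smul_eq_mul]
    exact inv_mul_cancel₀ (ht none)
  · intro j
    have := (b (Fin.castLE hK j)).2
    rw [LinearMap.mem_ker, LinearMap.prod_apply, Prod.mk_eq_zero] at this
    exact this.1
  · intro j
    have := (b (Fin.castLE hK j)).2
    rw [LinearMap.mem_ker, LinearMap.prod_apply, Prod.mk_eq_zero] at this
    exact this.2
  · intro i j
    have := LinearMap.congr_fun (hu i) (b (Fin.castLE hK j))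
    simp only [LinearMap.comp_apply, Submodule.subtype_apply, Module.Basis.coord_apply,
      Module.Basis.repr_self] at this
    rw [this, Finsupp.single_apply]
    by_cases h : i = j
    · simp [h]
    · rw [if_neg h, if_neg]
      intro h'
      exact h (Fin.castLE_injective hK h'.symm)

end Pool.Agent.H519R3
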