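import Pool.Agent.H519R3.DP2

set_option autoImplicit false

open MvPolynomial

namespace Pool.Agent.H519R3

variable {n : ℕ}

/-- The family of forms used for the lower bound. -/
noncomputable def fam (s t : Module.Dual ℂ (Fin (n + 1) → ℂ))
    (u : Fin (n - 1) → Module.Dual ℂ (Fin (n + 1) → ℂ)) (d r : ℕ) :
    Fin (min (d + 1) (2 * r)) ⊕ (Fin (n - 1) × Fin (min d r)) →
      MvPolynomial (Fin (n + 1)) ℂ :=
  Sum.elim (fun a => lin s ^ (d - a) * lin t ^ (a : ℕ))
    (fun x => lin (u x.1) * lin s ^ (d - 1 - x.2) * lin t ^ (x.2 : ℕ))

theorem fam_mem (s t : Module.Dual ℂ (Fin (n + 1) → ℂ))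
    (u : Fin (n - 1) → Module.Dual ℂ (Fin (n + 1) → ℂ)) (d r : ℕ) (x) :
    fam s t u d r x ∈ homogeneousSubmodule (Fin (n + 1)) ℂ d := by
  rw [mem_homogeneousSubmodule]
  rcases x with a | ⟨j, a⟩
  · have h := ((lin_mem s).pow (d - a)).mul ((lin_mem t).pow (a : ℕ))
    have ha := a.2
    have : 1 * (d - (a : ℕ)) + 1 * (a : ℕ) = d := by omega
    rw [this] at h
    exact h
  · have h := ((lin_mem (u j)).mul ((lin_mem s).pow (d - 1 - a))).mul ((lin_mem t).pow (a : ℕ))
    have ha := a.2
    have : 1 + 1 * (d - 1 - (a : ℕ)) + 1 * (a : ℕ) = d := by omega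
    rw [this] at h
    exact h

theorem lower_bound (hn : 1 ≤ n) {r : ℕ} (hr : 1 ≤ r)
    (Y : Finset (Projectivization ℂ (Fin (n + 1) → ℂ))) (hY : Y.card = r) (d : ℕ) :
    min (d + 1) (2 * r) + (n - 1) * min d r ≤ hilb Y d := by
  classical
  have hYne : Y.Nonempty := by
    rw [← Finset.card_pos]; omega
  obtain ⟨s, t, v₁, u, w, pt, hpt, hs, hτ, hsv, htv, hsw, htw, huw⟩ := exists_coords hn Y hYne
  have hfin : (homogeneousSubmodule (Fin (n + 1)) ℂ d).FG := homogeneousSubmodule_fg _ _ d
  have hfin' : Module.Finite ℂ ((homogeneousSubmodule (Fin (n + 1)) ℂ d).map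
      (Ideal.Quotient.mkₐ ℂ (doubleIdeal Y)).toLinearMap) :=
    Module.Finite.iff_fg.2 (hfin.map _)
  let S := (homogeneousSubmodule (Fin (n + 1)) ℂ d).map
      (Ideal.Quotient.mkₐ ℂ (doubleIdeal Y)).toLinearMap
  let f : Fin (min (d + 1) (2 * r)) ⊕ (Fin (n - 1) × Fin (min d r)) → S := fun x =>
    ⟨(Ideal.Quotient.mkₐ ℂ (doubleIdeal Y)).toLinearMap (fam s t u d r x),
      Submodule.mem_map_of_mem (fam_mem s t u d r x)⟩
  have hli : LinearIndependent ℂ f := by
    rw [Fintype.linearIndependent_iff]
    intro g hg
    have hF : (∑ x, g x • fam s t u d r x) ∈ doubleIdeal Y := by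
      rw [← Ideal.Quotient.eq_zero_iff_mem]
      have h := congrArg (Subtype.val) hg
      rw [Submodule.coe_sum] at h
      have h2 : (Ideal.Quotient.mkₐ ℂ (doubleIdeal Y)) (∑ x, g x • fam s t u d r x) = 0 := by
        rw [map_sum]
        rw [← Submodule.coe_zero (p := S), ← h]
        refine Finset.sum_congr rfl fun x _ => ?_
        rw [map_smul]
        rfl
      exact h2
    -- coefficients of the `u j` part
    have hsecond : ∀ j a, g (Sum.inr (j, a)) = 0 := by
      intro j a
      let G : Polynomial ℂ := ∑ a : Fin (min d r), Polynomial.monomial (a : ℕ) (g (Sum.inr (j, a)))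
      have hGdeg : G.natDegree < Y.card := by
        have : G.natDegree ≤ min d r - 1 := by
          refine Polynomial.natDegree_sum_le_of_forall_le _ _ fun b _ => ?_
          refine le_trans (Polynomial.natDegree_monomial_le _) ?_
          have := b.2
          omega
        have := a.2
        omega
      have hG : G = 0 := by
        refine poly_zero_of_simple hτ hGdeg fun P hP => ?_
        have h1 := (eval_eq_zero_of_mem_sq (mem_doubleIdeal.1 hF P hP) (hpt P hP) (w j)).2
        rw [map_sum, map_sum] at h1
        rw [← h1]
        rw [Fintype.sum_sum_type]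
        have hz1 : ∑ a : Fin (min (d + 1) (2 * r)), eval (pt P) ((dird (w j))
            (g (Sum.inl a) • fam s t u d r (Sum.inl a))) = 0 := by
          refine Finset.sum_eq_zero fun a _ => ?_
          rw [Derivation.map_smul]
          simp only [fam, Sum.elim_inl]
          rw [Derivation.leibniz, Derivation.leibniz_pow, Derivation.leibniz_pow, dird_lin,
            dird_lin, hsw, htw]
          simp
        rw [hz1, zero_add, Fintype.sum_prod_type]
        rw [Finset.sum_eq_single j]
        · simp only [G]
          rw [Polynomial.eval_finset_sum]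
          refine Finset.sum_congr rfl fun b _ => ?_
          rw [Derivation.map_smul]
          simp only [fam, Sum.elim_inr]
          rw [Derivation.leibniz, Derivation.leibniz, Derivation.leibniz_pow,
            Derivation.leibniz_pow, dird_lin, dird_lin, dird_lin, hsw, htw, huw]
          simp [eval_lin, hs P hP, MvPolynomial.smul_eval]
        · intro i _ hij
          refine Finset.sum_eq_zero fun b _ => ?_
          rw [Derivation.map_smul]
          simp only [fam, Sum.elim_inr]
          rw [Derivation.leibniz, Derivation.leibniz, Derivation.leibniz_pow,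
            Derivation.leibniz_pow, dird_lin, dird_lin, dird_lin, hsw, htw, huw, if_neg hij]
          simp
        · intro h
          exact absurd (Finset.mem_univ _) h
      have hc := congrArg (fun q => Polynomial.coeff q (a : ℕ)) hG
      simp only [G, Polynomial.finset_sum_coeff, Polynomial.coeff_zero,
        Polynomial.coeff_monomial] at hc
      rw [Finset.sum_eq_single a] at hc
      · simpa using hc
      · intro b _ hb
        rw [if_neg]
        intro h
        exact hb (Fin.ext h)
      · intro h
        exact absurd (Finset.mem_univ _) h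
    have hF' : ∑ a, g (Sum.inl a) • (lin s ^ (d - a) * lin t ^ (a : ℕ)) ∈ doubleIdeal Y := by
      rw [Fintype.sum_sum_type] at hF
      have hz : ∑ x : Fin (n - 1) × Fin (min d r), g (Sum.inr x) • fam s t u d r (Sum.inr x) = 0 :=
        Finset.sum_eq_zero fun x _ => by rw [hsecond x.1 x.2, zero_smul]
      rw [hz, add_zero] at hF
      exact hF
    have hfirst : ∀ a, g (Sum.inl a) = 0 := by
      intro a
      let G : Polynomial ℂ := ∑ a : Fin (min (d + 1) (2 * r)),
        Polynomial.monomial (a : ℕ) (g (Sum.inl a))
      have hGdeg : G.natDegree < 2 * Y.card := by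
        have : G.natDegree ≤ min (d + 1) (2 * r) - 1 := by
          refine Polynomial.natDegree_sum_le_of_forall_le _ _ fun b _ => ?_
          refine le_trans (Polynomial.natDegree_monomial_le _) ?_
          have := b.2
          omega
        have := a.2
        omega
      have hG : G = 0 := by
        refine poly_zero_of_double hτ hGdeg (fun P hP => ?_) (fun P hP => ?_)
        · have h1 := (eval_eq_zero_of_mem_sq (mem_doubleIdeal.1 hF' P hP) (hpt P hP) v₁).1
          rw [map_sum] at h1
          rw [← h1]
          simp only [G]
          rw [Polynomial.eval_finset_sum]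
          refine Finset.sum_congr rfl fun b _ => ?_
          simp [eval_lin, hs P hP, MvPolynomial.smul_eval]
        · have h1 := (eval_eq_zero_of_mem_sq (mem_doubleIdeal.1 hF' P hP) (hpt P hP) v₁).2
          rw [map_sum, map_sum] at h1
          rw [← h1]
          simp only [G]
          rw [Polynomial.derivative_sum, Polynomial.eval_finset_sum]
          refine Finset.sum_congr rfl fun b _ => ?_
          rw [Derivation.map_smul]
          rw [Derivation.leibniz, Derivation.leibniz_pow, Derivation.leibniz_pow, dird_lin,
            dird_lin, hsv, htv]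
          simp [eval_lin, hs P hP, MvPolynomial.smul_eval, Polynomial.derivative_monomial]
          ring
      have hc := congrArg (fun q => Polynomial.coeff q (a : ℕ)) hG
      simp only [G, Polynomial.finset_sum_coeff, Polynomial.coeff_zero,
        Polynomial.coeff_monomial] at hc
      rw [Finset.sum_eq_single a] at hc
      · simpa using hc
      · intro b _ hb
        rw [if_neg]
        intro h
        exact hb (Fin.ext h)
      · intro h
        exact absurd (Finset.mem_univ _) h
    rintro (a | ⟨j, a⟩)
    · exact hfirst a
    · exact hsecond j a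
  have hcard := hli.fintype_card_le_finrank
  simp only [Fintype.card_sum, Fintype.card_prod, Fintype.card_fin] at hcard
  exact hcard

end Pool.Agent.H519R3
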