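import Pool.Agent.H519R3.DP3

set_option autoImplicit false

open MvPolynomial

namespace Pool.Agent.H519R3

section reduction

variable {R : Type*} [CommRing R] [Algebra ℂ R]

/-- `y ^ N - ∏ (y - c i x)` is a combination of `x ^ (N - c) y ^ c` with `c < N`. -/
theorem prod_sub (x y : R) (c : ℕ → ℂ) (N : ℕ) :
    y ^ N - ∏ i ∈ Finset.range N, (y - algebraMap ℂ R (c i) * x) ∈
      Submodule.span ℂ ((fun a : ℕ => x ^ (N - a) * y ^ a) '' {a | a < N}) := by
  induction N with
  | zero => simp
  | succ N ih =>
    have hmul : ∀ z ∈ Submodule.span ℂ ((fun a : ℕ => x ^ (N - a) * y ^ a) '' {a | a < N}),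
        y * z ∈ Submodule.span ℂ ((fun a : ℕ => x ^ (N + 1 - a) * y ^ a) '' {a | a < N + 1}) := by
      intro z hz
      induction hz using Submodule.span_induction with
      | mem z hz =>
        obtain ⟨a, ha, rfl⟩ := hz
        refine Submodule.subset_span ⟨a + 1, ?_, ?_⟩
        · simpa using ha
        · simp only [Nat.add_sub_add_right]
          ring
      | zero => simp
      | add z w _ _ hz hw => rw [mul_add]; exact Submodule.add_mem _ hz hw
      | smul r z _ hz => rw [mul_smul_comm]; exact Submodule.smul_mem _ _ hz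
    have hmulx : ∀ z ∈ Submodule.span ℂ ((fun a : ℕ => x ^ (N - a) * y ^ a) '' {a | a < N}),
        x * z ∈ Submodule.span ℂ ((fun a : ℕ => x ^ (N + 1 - a) * y ^ a) '' {a | a < N + 1}) := by
      intro z hz
      induction hz using Submodule.span_induction with
      | mem z hz =>
        obtain ⟨a, ha, rfl⟩ := hz
        simp only [Set.mem_ofPred_eq] at ha
        refine Submodule.subset_span ⟨a, ?_, ?_⟩
        · simp only [Set.mem_ofPred_eq]; omega
        · simp only
          have : N + 1 - a = (N - a) + 1 := by omega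
          rw [this]
          ring
      | zero => simp
      | add z w _ _ hz hw => rw [mul_add]; exact Submodule.add_mem _ hz hw
      | smul r z _ hz => rw [mul_smul_comm]; exact Submodule.smul_mem _ _ hz
    rw [Finset.prod_range_succ]
    have hxy : x * y ^ N ∈
        Submodule.span ℂ ((fun a : ℕ => x ^ (N + 1 - a) * y ^ a) '' {a | a < N + 1}) := by
      refine Submodule.subset_span ⟨N, ?_, ?_⟩
      · simp
      · simp only
        have : N + 1 - N = 1 := by omega
        rw [this, pow_one]
    have key : y ^ (N + 1) - (∏ i ∈ Finset.range N, (y - algebraMap ℂ R (c i) * x)) *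
        (y - algebraMap ℂ R (c N) * x) =
        y * (y ^ N - ∏ i ∈ Finset.range N, (y - algebraMap ℂ R (c i) * x)) +
        c N • (x * y ^ N) -
        c N • (x * (y ^ N - ∏ i ∈ Finset.range N, (y - algebraMap ℂ R (c i) * x))) := by
      simp only [Algebra.smul_def]
      ring
    rw [key]
    exact Submodule.sub_mem _ (Submodule.add_mem _ (hmul _ ih) (Submodule.smul_mem _ _ hxy))
      (Submodule.smul_mem _ _ (hmulx _ ih))

/-- Reduction of `M x ^ b y ^ a` modulo an ideal containing `M * ∏ (y - c i x)`. -/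
theorem reduce (x y M : R) (c : ℕ → ℂ) (N D : ℕ) (I : Ideal R)
    (hI : M * ∏ i ∈ Finset.range N, (y - algebraMap ℂ R (c i) * x) ∈ I)
    (T : Submodule ℂ R) (hIT : I.restrictScalars ℂ ≤ T)
    (hT : ∀ a, a < N → a ≤ D → M * (x ^ (D - a) * y ^ a) ∈ T) :
    ∀ a, a ≤ D → M * (x ^ (D - a) * y ^ a) ∈ T := by
  intro a
  induction a using Nat.strong_induction_on with
  | _ a ih =>
    intro haD
    by_cases haN : a < N
    · exact hT a haN haD
    · push Not at haN
      have h1 : M * (x ^ (D - a) * y ^ a) =
          x ^ (D - a) * y ^ (a - N) *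
            (M * ∏ i ∈ Finset.range N, (y - algebraMap ℂ R (c i) * x)) +
          (M * x ^ (D - a) * y ^ (a - N)) *
            (y ^ N - ∏ i ∈ Finset.range N, (y - algebraMap ℂ R (c i) * x)) := by
        have : y ^ a = y ^ (a - N) * y ^ N := by rw [← pow_add]; congr 1; omega
        rw [this]
        ring
      rw [h1]
      refine Submodule.add_mem _ (hIT (I.mul_mem_left _ hI)) ?_
      have h2 := prod_sub x y c N
      have h3 : ∀ z ∈ Submodule.span ℂ ((fun a : ℕ => x ^ (N - a) * y ^ a) '' {a | a < N}),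
          (M * x ^ (D - a) * y ^ (a - N)) * z ∈ T := by
        intro z hz
        induction hz using Submodule.span_induction with
        | mem z hz =>
          obtain ⟨e, he, rfl⟩ := hz
          simp only [Set.mem_ofPred_eq] at he
          have h4 := ih (a - N + e) (by omega) (by omega)
          have h5 : (M * x ^ (D - a) * y ^ (a - N)) * (x ^ (N - e) * y ^ e) =
              M * (x ^ (D - (a - N + e)) * y ^ (a - N + e)) := by
            have : D - (a - N + e) = (D - a) + (N - e) := by omega
            rw [this, pow_add, pow_add]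
            ring
          simp only
          rw [h5]
          exact h4
        | zero => simp
        | add z w _ _ hz hw => rw [mul_add]; exact Submodule.add_mem _ hz hw
        | smul r z _ hz => rw [mul_smul_comm]; exact Submodule.smul_mem _ _ hz
      exact h3 _ h2

end reduction

variable {m : ℕ}

/-- The points `[1 : c : 0 : ... : 0]`. -/
noncomputable def lineVec (c : ℂ) : Fin (m + 1 + 1) → ℂ :=
  fun k => if k = 0 then 1 else if k = 1 then c else 0

theorem lineVec_zero (c : ℂ) : lineVec (m := m) c 0 = 1 := by simp [lineVec]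
theorem lineVec_one (c : ℂ) : lineVec (m := m) c 1 = c := by simp [lineVec]
theorem lineVec_two (c : ℂ) (j : Fin m) : lineVec (m := m) c j.succ.succ = 0 := by
  unfold lineVec
  rw [if_neg (Fin.succ_ne_zero _), if_neg]
  intro h
  have := congrArg Fin.val h
  simp at this

theorem lineVec_ne (c : ℂ) : lineVec (m := m) c ≠ 0 := by
  intro h
  have := congrFun h 0
  rw [lineVec_zero] at this
  simp at this

noncomputable def linePt (i : ℕ) : Projectivization ℂ (Fin (m + 1 + 1) → ℂ) :=
  Projectivization.mk ℂ (lineVec (i : ℂ)) (lineVec_ne _)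

theorem linePt_injective : Function.Injective (linePt (m := m)) := by
  intro i j h
  unfold linePt at h
  rw [Projectivization.mk_eq_mk_iff'] at h
  obtain ⟨a, ha⟩ := h
  have h0 := congrFun ha 0
  have h1 := congrFun ha 1
  simp only [Pi.smul_apply, lineVec_zero, lineVec_one, smul_eq_mul, mul_one] at h0 h1
  rw [h0, one_mul] at h1
  exact_mod_cast h1.symm

theorem mem_linePt {i : ℕ} {F : MvPolynomial (Fin (m + 1 + 1)) ℂ} :
    F ∈ pointIdeal (linePt (m := m) i) ↔ ∀ a : ℂ, eval (a • lineVec (i : ℂ)) F = 0 := by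
  rw [mem_pointIdeal]
  unfold linePt
  rw [Projectivization.submodule_mk]
  constructor
  · intro h a
    exact h _ (Submodule.smul_mem _ _ (Submodule.mem_span_singleton_self _))
  · intro h v hv
    obtain ⟨a, rfl⟩ := Submodule.mem_span_singleton.1 hv
    exact h a

noncomputable def lineSet (r : ℕ) : Finset (Projectivization ℂ (Fin (m + 1 + 1) → ℂ)) :=
  (Finset.range r).map ⟨linePt, linePt_injective⟩

theorem card_lineSet (r : ℕ) : (lineSet (m := m) r).card = r := by
  simp [lineSet]

theorem mem_doubleIdeal_lineSet {r : ℕ} {F : MvPolynomial (Fin (m + 1 + 1)) ℂ} :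
    F ∈ doubleIdeal (lineSet (m := m) r) ↔ ∀ i < r, F ∈ pointIdeal (linePt (m := m) i) ^ 2 := by
  rw [mem_doubleIdeal]
  simp [lineSet]

theorem X_mem (i : ℕ) (j : Fin m) :
    (X j.succ.succ : MvPolynomial (Fin (m + 1 + 1)) ℂ) ∈ pointIdeal (linePt (m := m) i) := by
  rw [mem_linePt]
  intro a
  simp [lineVec_two]

theorem XX_mem (i : ℕ) :
    (X 1 - algebraMap ℂ _ (i : ℂ) * X 0 : MvPolynomial (Fin (m + 1 + 1)) ℂ) ∈
      pointIdeal (linePt (m := m) i) := by
  rw [mem_linePt]
  intro a
  rw [MvPolynomial.algebraMap_eq]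
  simp [lineVec_zero, lineVec_one]
  ring

theorem prod_mem (r i : ℕ) (hi : i < r) :
    (∏ i ∈ Finset.range r, (X 1 - algebraMap ℂ _ (i : ℂ) * X 0 :
      MvPolynomial (Fin (m + 1 + 1)) ℂ)) ∈ pointIdeal (linePt (m := m) i) :=
  Ideal.mem_of_dvd _ (Finset.dvd_prod_of_mem _ (Finset.mem_range.2 hi)) (XX_mem i)

/-- Every monomial of degree `d` is in `T` as soon as the three types of monomials are. -/
theorem homog_le (d : ℕ) (T : Submodule ℂ (MvPolynomial (Fin (m + 1 + 1)) ℂ))
    (h0 : ∀ a, a ≤ d → 1 * (X 0 ^ (d - a) * X 1 ^ a) ∈ T)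
    (h1 : ∀ j : Fin m, ∀ a, a ≤ d - 1 → 1 ≤ d → X j.succ.succ * (X 0 ^ (d - 1 - a) * X 1 ^ a) ∈ T)
    (h2 : ∀ (j k : Fin m) (F : MvPolynomial (Fin (m + 1 + 1)) ℂ),
      X j.succ.succ * X k.succ.succ * F ∈ T) :
    homogeneousSubmodule (Fin (m + 1 + 1)) ℂ d ≤ T := by
  intro F hF
  rw [mem_homogeneousSubmodule] at hF
  rw [F.as_sum]
  refine Submodule.sum_mem _ fun e he => ?_
  have hdeg : e.degree = d := by
    have := hF (MvPolynomial.mem_support_iff.1 he)
    rw [← this, Finsupp.degree_eq_weight_one]
    rfl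
  have hmon : monomial e (coeff e F) = coeff e F • (∏ i, X i ^ e i : MvPolynomial (Fin (m + 1 + 1)) ℂ) := by
    rw [MvPolynomial.monomial_eq, Finsupp.prod_fintype _ _ (fun i => pow_zero _),
      MvPolynomial.smul_eq_C_mul]
  rw [hmon]
  refine Submodule.smul_mem _ _ ?_
  have hsum : ∑ i, e i = d := by rw [← hdeg, Finsupp.degree_eq_sum]
  rw [Fin.prod_univ_succ, Fin.prod_univ_succ]
  rw [Fin.sum_univ_succ, Fin.sum_univ_succ] at hsum
  have hone : (Fin.succ 0 : Fin (m + 1 + 1)) = 1 := rfl
  rw [hone] at hsum ⊢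
  by_cases hz : ∑ i : Fin m, e i.succ.succ = 0
  · have hp : ∏ i : Fin m, (X i.succ.succ : MvPolynomial (Fin (m + 1 + 1)) ℂ) ^ e i.succ.succ = 1 := by
      refine Finset.prod_eq_one fun i _ => ?_
      rw [Finset.sum_eq_zero_iff] at hz
      rw [hz i (Finset.mem_univ _), pow_zero]
    rw [hp, mul_one]
    have h := h0 (e 1) (by omega)
    have h' : d - e 1 = e 0 := by omega
    rw [h', one_mul] at h
    exact h
  · obtain ⟨j, hj, hj'⟩ := Finset.exists_ne_zero_of_sum_ne_zero hz
    by_cases hone' : ∑ i : Fin m, e i.succ.succ = 1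
    · have hej : e j.succ.succ = 1 := by
        have := Finset.single_le_sum (f := fun i : Fin m => e i.succ.succ)
          (fun i _ => Nat.zero_le _) (Finset.mem_univ j)
        omega
      have hother : ∀ i : Fin m, i ≠ j → e i.succ.succ = 0 := by
        intro i hi
        have h := Finset.sum_erase_add Finset.univ (fun i : Fin m => e i.succ.succ) (Finset.mem_univ j)
        have h3 : ∑ i ∈ Finset.univ.erase j, e i.succ.succ = 0 := by omega
        rw [Finset.sum_eq_zero_iff] at h3
        exact h3 i (Finset.mem_erase.2 ⟨hi, Finset.mem_univ _⟩)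
      have hp : ∏ i : Fin m, (X i.succ.succ : MvPolynomial (Fin (m + 1 + 1)) ℂ) ^ e i.succ.succ =
          X j.succ.succ := by
        rw [Finset.prod_eq_single j]
        · rw [hej, pow_one]
        · intro i _ hi
          rw [hother i hi, pow_zero]
        · intro h
          exact absurd (Finset.mem_univ _) h
      rw [hp]
      have h := h1 j (e 1) (by omega) (by omega)
      have h' : d - 1 - e 1 = e 0 := by omega
      rw [h'] at h
      have h'' : (X 0 ^ e 0 * (X 1 ^ e 1 * X j.succ.succ) : MvPolynomial (Fin (m + 1 + 1)) ℂ) =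
          X j.succ.succ * (X 0 ^ e 0 * X 1 ^ e 1) := by ring
      rw [h'']
      exact h
    · -- at least two factors
      have hdvd : ∃ k : Fin m, (X j.succ.succ * X k.succ.succ : MvPolynomial (Fin (m + 1 + 1)) ℂ) ∣
          ∏ i : Fin m, X i.succ.succ ^ e i.succ.succ := by
        by_cases h2' : 2 ≤ e j.succ.succ
        · refine ⟨j, ?_⟩
          rw [← pow_two]
          exact (pow_dvd_pow _ h2').trans (Finset.dvd_prod_of_mem
            (fun i : Fin m => (X i.succ.succ : MvPolynomial (Fin (m + 1 + 1)) ℂ) ^ e i.succ.succ)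
            (Finset.mem_univ j))
        · have h := Finset.sum_erase_add Finset.univ (fun i : Fin m => e i.succ.succ)
            (Finset.mem_univ j)
          have h3 : ∑ i ∈ Finset.univ.erase j, e i.succ.succ ≠ 0 := by omega
          obtain ⟨k, hk, hk'⟩ := Finset.exists_ne_zero_of_sum_ne_zero h3
          refine ⟨k, ?_⟩
          rw [← Finset.mul_prod_erase Finset.univ _ (Finset.mem_univ j)]
          refine mul_dvd_mul (dvd_pow_self _ hj') ?_
          exact (dvd_pow_self _ hk').trans (Finset.dvd_prod_of_mem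
            (fun i : Fin m => (X i.succ.succ : MvPolynomial (Fin (m + 1 + 1)) ℂ) ^ e i.succ.succ)
            hk)
      obtain ⟨k, Q, hQ⟩ := hdvd
      rw [hQ]
      have h'' : (X 0 ^ e 0 * (X 1 ^ e 1 * (X j.succ.succ * X k.succ.succ * Q)) :
          MvPolynomial (Fin (m + 1 + 1)) ℂ) =
          X j.succ.succ * X k.succ.succ * (X 0 ^ e 0 * X 1 ^ e 1 * Q) := by ring
      rw [h'']
      exact h2 _ _ _

end Pool.Agent.H519R3
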