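import Pool.Agent.H519R3.DP4

set_option autoImplicit false

open MvPolynomial

namespace Pool.Agent.H519R3

theorem hilb_le {m : ℕ} (d r : ℕ) :
    hilb (lineSet (m := m) r) d ≤ min (d + 1) (2 * r) + m * min d r := by
  classical
  set I := doubleIdeal (lineSet (m := m) r) with hI
  let B : Fin (min (d + 1) (2 * r)) ⊕ (Fin m × Fin (min d r)) →
      MvPolynomial (Fin (m + 1 + 1)) ℂ :=
    Sum.elim (fun a => X 0 ^ (d - a) * X 1 ^ (a : ℕ))
      (fun x => X x.1.succ.succ * (X 0 ^ (d - 1 - x.2) * X 1 ^ (x.2 : ℕ)))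
  let T : Submodule ℂ (MvPolynomial (Fin (m + 1 + 1)) ℂ) :=
    Submodule.span ℂ (Set.range B) ⊔ I.restrictScalars ℂ
  have hIT : I.restrictScalars ℂ ≤ T := le_sup_right
  have hBT : ∀ x, B x ∈ T := fun x =>
    (le_sup_left : Submodule.span ℂ (Set.range B) ≤ T) (Submodule.subset_span ⟨x, rfl⟩)
  have hle : homogeneousSubmodule (Fin (m + 1 + 1)) ℂ d ≤ T := by
    refine homog_le d T ?_ ?_ ?_
    · refine reduce (X 0) (X 1) 1 (fun i => ((i % r : ℕ) : ℂ)) (2 * r) d I ?_ T hIT ?_
      · have hprod : (∏ i ∈ Finset.range (2 * r), (X 1 - algebraMap ℂ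
            (MvPolynomial (Fin (m + 1 + 1)) ℂ) ((i % r : ℕ) : ℂ) * X 0)) =
            (∏ i ∈ Finset.range r, (X 1 - algebraMap ℂ _ (i : ℂ) * X 0)) ^ 2 := by
          rw [two_mul, Finset.prod_range_add, pow_two]
          congr 1
          · refine Finset.prod_congr rfl fun i hi => ?_
            rw [Nat.mod_eq_of_lt (Finset.mem_range.1 hi)]
          · refine Finset.prod_congr rfl fun i hi => ?_
            rw [Nat.add_mod_left, Nat.mod_eq_of_lt (Finset.mem_range.1 hi)]
        rw [one_mul, hprod, hI, mem_doubleIdeal_lineSet]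
        intro i hi
        exact Ideal.pow_mem_pow (prod_mem r i hi) 2
      · intro a ha had
        rw [one_mul]
        exact hBT (Sum.inl ⟨a, by omega⟩)
    · intro j
      by_cases hd : 1 ≤ d
      · have := reduce (X 0) (X 1) (X j.succ.succ) (fun i => (i : ℂ)) r (d - 1) I ?_ T hIT ?_
        · intro a ha _
          exact this a ha
        · rw [hI, mem_doubleIdeal_lineSet]
          intro i hi
          rw [pow_two]
          exact Ideal.mul_mem_mul (X_mem i j) (prod_mem r i hi)
        · intro a ha had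
          exact hBT (Sum.inr (j, ⟨a, by omega⟩))
      · intro a _ hd'
        exact absurd hd' hd
    · intro j k F
      refine hIT ?_
      change _ ∈ I
      refine I.mul_mem_right _ ?_
      rw [hI, mem_doubleIdeal_lineSet]
      intro i hi
      rw [pow_two]
      exact Ideal.mul_mem_mul (X_mem i j) (X_mem i k)
  have hmap : (homogeneousSubmodule (Fin (m + 1 + 1)) ℂ d).map
      (Ideal.Quotient.mkₐ ℂ I).toLinearMap ≤
      Submodule.span ℂ (Set.range fun x => (Ideal.Quotient.mkₐ ℂ I).toLinearMap (B x)) := by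
    refine (Submodule.map_mono hle).trans ?_
    rw [Submodule.map_sup]
    refine sup_le ?_ ?_
    · rw [Submodule.map_span, ← Set.range_comp]
      exact le_of_eq rfl
    · rintro _ ⟨z, hz, rfl⟩
      have : (Ideal.Quotient.mkₐ ℂ I).toLinearMap z = 0 := Ideal.Quotient.eq_zero_iff_mem.2 hz
      rw [this]
      exact Submodule.zero_mem _
  have hfin : Module.Finite ℂ (Submodule.span ℂ (Set.range fun x =>
      (Ideal.Quotient.mkₐ ℂ I).toLinearMap (B x))) :=
    FiniteDimensional.span_of_finite ℂ (Set.finite_range _)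
  calc hilb (lineSet (m := m) r) d ≤ Module.finrank ℂ (Submodule.span ℂ (Set.range fun x =>
      (Ideal.Quotient.mkₐ ℂ I).toLinearMap (B x))) := Submodule.finrank_mono hmap
    _ ≤ Fintype.card (Fin (min (d + 1) (2 * r)) ⊕ (Fin m × Fin (min d r))) :=
        finrank_range_le_card _
    _ = _ := by simp

end Pool.Agent.H519R3
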